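import Mathlib

set_option autoImplicit false

/-!
Selection of coefficients avoiding countably many small sets.
-/

namespace Pool.Agent.N242.UI

open Set Filter Topology

/-- Finite union bound: a point of a finite product avoiding sets which are thin in one direction. -/
theorem exists_avoid {M : ℕ} (K : Fin M → ℕ) (hK : ∀ n, 0 < K n)
    (hs : ∑ m, (1 : ℝ) / K m < 1) (Bad : Fin M → Set ((i : Fin M) → Fin (K i)))
    (hB : ∀ m θ (i j : Fin (K m)), Function.update θ m i ∈ Bad m → Function.update θ m j ∈ Bad m →
      i = j) :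
    ∃ θ : (i : Fin M) → Fin (K i), ∀ m, θ ∉ Bad m := by
  classical
  by_contra hcon
  push Not at hcon
  set T : Finset ((i : Fin M) → Fin (K i)) := Finset.univ with hT
  have hcard : ∀ m, (T.filter (· ∈ Bad m)).card * K m ≤ T.card := by
    intro m
    have h1 : ((T.filter (· ∈ Bad m)) ×ˢ (Finset.univ : Finset (Fin (K m)))).card ≤ T.card := by
      refine Finset.card_le_card_of_injOn (fun x => Function.update x.1 m x.2)
        (fun x _ => Finset.mem_univ _) ?_
      rintro ⟨θ, i⟩ h1 ⟨θ', i'⟩ h2 heq
      simp only [Finset.coe_product, Set.mem_prod, Finset.mem_coe, Finset.mem_filter] at h1 h2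
      simp only at heq
      have hii : i = i' := by
        have := congrFun heq m
        simpa using this
      subst hii
      have hoff : ∀ n, n ≠ m → θ n = θ' n := by
        intro n hn
        have := congrFun heq n
        simpa [Function.update_of_ne hn] using this
      have h3 : Function.update θ m (θ m) ∈ Bad m := by
        rw [Function.update_eq_self]; exact h1.1.2
      have h4 : Function.update θ m (θ' m) ∈ Bad m := by
        have : Function.update θ m (θ' m) = θ' := by
          funext n
          by_cases hn : n = m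
          · subst hn; simp
          · rw [Function.update_of_ne hn]; exact hoff n hn
        rw [this]; exact h2.1.2
      have h5 := hB m θ _ _ h3 h4
      have : θ = θ' := by
        funext n
        by_cases hn : n = m
        · subst hn; exact h5
        · exact hoff n hn
      rw [this]
    rw [Finset.card_product, Finset.card_univ, Fintype.card_fin] at h1
    exact h1
  have hTpos : 0 < (T.card : ℝ) := by
    have : Nonempty ((i : Fin M) → Fin (K i)) := ⟨fun i => ⟨0, hK i⟩⟩
    have : 0 < T.card := Finset.card_pos.2 ⟨Classical.arbitrary _, Finset.mem_univ _⟩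
    exact_mod_cast this
  have hcover : T ⊆ Finset.univ.biUnion fun m => T.filter (· ∈ Bad m) := by
    intro θ _
    obtain ⟨m, hm⟩ := hcon θ
    rw [Finset.mem_biUnion]
    exact ⟨m, Finset.mem_univ _, by simp [hT, hm]⟩
  have h2 : (T.card : ℝ) ≤ ∑ m, ((T.filter (· ∈ Bad m)).card : ℝ) := by
    have := (Finset.card_le_card hcover).trans Finset.card_biUnion_le
    exact_mod_cast this
  have h3 : ∑ m, ((T.filter (· ∈ Bad m)).card : ℝ) ≤ ∑ m, (T.card : ℝ) * (1 / K m) := by
    refine Finset.sum_le_sum fun m _ => ?_
    have hKm : (0 : ℝ) < K m := by exact_mod_cast hK m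
    rw [mul_one_div, le_div_iff₀ hKm]
    exact_mod_cast hcard m
  rw [← Finset.mul_sum] at h3
  nlinarith

/-- Choice of coefficients. -/
theorem exists_coeff (K : ℕ → ℕ) (hK : ∀ n, 0 < K n)
    (hs : ∀ M, ∑ m ∈ Finset.range M, (1 : ℝ) / K m < 1) (c : ℕ → ℕ → ℂ)
    (hc : ∀ m, Summable fun n => ‖c m n‖) (w : ℕ → ℝ) (hw : ∀ m, 0 < w m)
    (hd : ∀ m, c m m = (w m : ℂ)) :
    ∃ θ : ℕ → ℝ, (∀ n, θ n ∈ Icc (0 : ℝ) 1) ∧
      ∀ m, w m / (2 * K m) ≤ ‖∑' n, (θ n : ℂ) * c m n‖ := by
  classical
  have hsum : ∀ (θ : ℕ → ℝ), (∀ n, θ n ∈ Icc (0 : ℝ) 1) → ∀ m,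
      Summable fun n => (θ n : ℂ) * c m n := by
    intro θ hθ m
    refine Summable.of_norm_bounded (hc m) fun n => ?_
    rw [norm_mul, Complex.norm_real, Real.norm_eq_abs, abs_of_nonneg (hθ n).1]
    exact mul_le_of_le_one_left (norm_nonneg _) (hθ n).2
  -- finite stage
  have hfin : ∀ M : ℕ, ∃ θ : ℕ → ℝ, (∀ n, θ n ∈ Icc (0 : ℝ) 1) ∧
      ∀ m < M, w m / (2 * K m) ≤ ‖∑' n, (θ n : ℂ) * c m n‖ := by
    intro M
    let ext : ((i : Fin M) → Fin (K i)) → ℕ → ℝ := fun θ n =>
      if h : n < M then ((θ ⟨n, h⟩ : ℕ) : ℝ) / K n else 0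
    have hext : ∀ θ n, ext θ n ∈ Icc (0 : ℝ) 1 := by
      intro θ n
      simp only [ext]
      split_ifs with h
      · have hKn : (0 : ℝ) < K n := by exact_mod_cast hK n
        constructor
        · positivity
        · rw [div_le_one hKn]
          exact_mod_cast (θ ⟨n, h⟩).2.le
      · simp
    obtain ⟨θ, hθ⟩ := exists_avoid (M := M) (fun i => K i) (fun i => hK i)
      (by
        have := hs M
        rwa [Finset.sum_range] at this)
      (fun m => {θ | ‖∑' n, (ext θ n : ℂ) * c m n‖ < w m / (2 * K m)}) (by
        intro m θ i j hi hj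
        by_contra hij
        simp only [mem_setOf_eq] at hi hj
        have hKm : (0 : ℝ) < K m := by exact_mod_cast hK m
        have h1 : ∑' n, (ext (Function.update θ m i) n : ℂ) * c m n -
            ∑' n, (ext (Function.update θ m j) n : ℂ) * c m n =
            (((i : ℕ) : ℂ) - ((j : ℕ) : ℂ)) / K m * w m := by
          rw [← (hsum _ (hext _) m).tsum_sub (hsum _ (hext _) m)]
          rw [tsum_eq_single (m : ℕ)]
          · rw [hd]
            simp only [ext, m.2, dif_pos, Fin.eta, Function.update_self]
            push_cast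
            ring
          · intro n hn
            have : ext (Function.update θ m i) n = ext (Function.update θ m j) n := by
              simp only [ext]
              split_ifs with h
              · have hne : (⟨n, h⟩ : Fin M) ≠ m := by
                  intro h'
                  exact hn (by rw [← h'])
                rw [Function.update_of_ne hne, Function.update_of_ne hne]
              · rfl
            rw [this, sub_self]
        have h2 : (1 : ℝ) / K m * w m ≤ ‖(((i : ℕ) : ℂ) - ((j : ℕ) : ℂ)) / K m * w m‖ := by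
          rw [norm_mul, norm_div, Complex.norm_real, Real.norm_eq_abs, abs_of_pos (hw m),
            Complex.norm_natCast]
          have h3 : (1 : ℝ) ≤ ‖((i : ℕ) : ℂ) - ((j : ℕ) : ℂ)‖ := by
            have h4 : ((i : ℕ) : ℂ) - ((j : ℕ) : ℂ) = ((((i : ℕ) : ℤ) - ((j : ℕ) : ℤ) : ℤ) : ℂ) := by
              push_cast; ring
            rw [h4, Complex.norm_intCast]
            have h5 : ((i : ℕ) : ℤ) - ((j : ℕ) : ℤ) ≠ 0 := by
              intro h
              apply hij
              apply Fin.ext
              omega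
            exact_mod_cast Int.one_le_abs h5
          gcongr
          exact (hw m).le
        have h6 : ‖(((i : ℕ) : ℂ) - ((j : ℕ) : ℂ)) / K m * w m‖ < w m / (2 * K m) + w m / (2 * K m) := by
          rw [← h1]
          exact (norm_sub_le _ _).trans_lt (add_lt_add hi hj)
        have h7 : w m / (2 * K m) + w m / (2 * K m) = 1 / K m * w m := by
          field_simp
          ring
        linarith)
    refine ⟨ext θ, hext θ, fun m hm => ?_⟩
    have := hθ ⟨m, hm⟩
    simp only [mem_setOf_eq, not_lt] at this
    exact this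
  choose θ hθ1 hθ2 using hfin
  -- compactness
  set U : Ultrafilter ℕ := Filter.hyperfilter ℕ with hU
  have hlim : ∀ n, ∃ x ∈ Icc (0 : ℝ) 1, Tendsto (fun M => θ M n) (U : Filter ℕ) (𝓝 x) := by
    intro n
    have h1 : ((U.map fun M => θ M n : Ultrafilter ℝ) : Filter ℝ) ≤ 𝓟 (Icc (0 : ℝ) 1) := by
      rw [Ultrafilter.coe_map, le_principal_iff, mem_map]
      exact Filter.univ_mem' fun M => hθ1 M n
    obtain ⟨x, hx, hle⟩ := isCompact_Icc.ultrafilter_le_nhds _ h1
    exact ⟨x, hx, hle⟩
  choose x hx1 hx2 using hlim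
  refine ⟨x, hx1, fun m => ?_⟩
  have ht : Tendsto (fun M => ∑' n, (θ M n : ℂ) * c m n) (U : Filter ℕ)
      (𝓝 (∑' n, (x n : ℂ) * c m n)) := by
    refine tendsto_tsum_of_dominated_convergence (hc m) (fun n => ?_) ?_
    · exact ((Complex.continuous_ofReal.tendsto _).comp (hx2 n)).mul_const _
    · refine Eventually.of_forall fun M n => ?_
      rw [norm_mul, Complex.norm_real, Real.norm_eq_abs, abs_of_nonneg (hθ1 M n).1]
      exact mul_le_of_le_one_left (norm_nonneg _) (hθ1 M n).2
  refine ge_of_tendsto ht.norm ?_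
  have h1 : ∀ᶠ M in (U : Filter ℕ), m < M := by
    have : (U : Filter ℕ) ≤ atTop := by
      rw [← Nat.cofinite_eq_atTop]
      exact Filter.hyperfilter_le_cofinite
    exact this (eventually_gt_atTop m)
  filter_upwards [h1] with M hM
  exact hθ2 M m hM

end Pool.Agent.N242.UI
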