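import Pool.Agent.N242.UI.Weights
import Pool.Agent.N242.UI.Sel

set_option autoImplicit false

/-!
A universal interpolating sequence satisfies condition (2).
-/

namespace Pool.Agent.N242.UI

open Set Filter Topology Metric
open Pool.Agent.W778.UI

/-- Leibniz rule for a linear factor. -/
theorem iteratedDeriv_linear_mul {g : ℂ → ℂ} (hg : Differentiable ℂ g) (b : ℂ) (k : ℕ) :
    iteratedDeriv k (fun z => (z - b) * g z) =
      fun z => (z - b) * iteratedDeriv k g z + k * iteratedDeriv (k - 1) g z := by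
  induction k with
  | zero =>
    funext z
    simp
  | succ k ih =>
    rw [iteratedDeriv_succ, ih]
    funext z
    have hd : ∀ j : ℕ, Differentiable ℂ (iteratedDeriv j g) := by
      intro j
      have : ContDiff ℂ (j + 1 : ℕ) g := hg.contDiff
      exact this.differentiable_iteratedDeriv j (by exact_mod_cast Nat.lt_succ_self j)
    have h1 : HasDerivAt (fun z => (z - b) * iteratedDeriv k g z + k * iteratedDeriv (k - 1) g z)
        (1 * iteratedDeriv k g z + (z - b) * deriv (iteratedDeriv k g) z +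
          k * deriv (iteratedDeriv (k - 1) g) z) z := by
      refine HasDerivAt.add ?_ ?_
      · exact ((hasDerivAt_id z).sub_const b).mul ((hd k) z).hasDerivAt
      · exact (((hd (k - 1)) z).hasDerivAt).const_mul _
    rw [h1.deriv]
    rw [← iteratedDeriv_succ, ← iteratedDeriv_succ]
    rcases k with _ | k
    · simp
      ring
    · simp only [Nat.add_sub_cancel]
      push_cast
      ring

/-- Iterated derivatives of an infinite series of entire functions. -/
theorem series_props {f : ℕ → ℂ → ℂ} (hf : ∀ n, Differentiable ℂ (f n)) {u : ℕ → ℝ}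
    (hu : Summable u) {B : ℂ → ℝ} (hB : Continuous B) (hB0 : ∀ z, 0 ≤ B z)
    (hb : ∀ n z, ‖f n z‖ ≤ u n * B z) :
    Differentiable ℂ (fun z => ∑' n, f n z) ∧ ∀ k a, (Summable fun n => iteratedDeriv k (f n) a) →
      iteratedDeriv k (fun z => ∑' n, f n z) a = ∑' n, iteratedDeriv k (f n) a := by
  have hu0 : ∀ n z, u n * B z ≤ |u n| * B z := fun n z =>
    mul_le_mul_of_nonneg_right (le_abs_self _) (hB0 z)
  have hball : ∀ R : ℕ, TendstoUniformlyOn (fun N z => ∑ n ∈ Finset.range N, f n z)
      (fun z => ∑' n, f n z) atTop (ball (0:ℂ) R) := by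
    intro R
    obtain ⟨M, hM⟩ := (isCompact_closedBall (0:ℂ) R).bddAbove_image hB.continuousOn
    have hM' : ∀ z ∈ ball (0:ℂ) R, B z ≤ M := fun z hz => hM ⟨z, ball_subset_closedBall hz, rfl⟩
    refine tendstoUniformlyOn_tsum_nat (u := fun n => |u n| * |M|) (hu.abs.mul_right _) ?_
    intro n z hz
    refine (hb n z).trans ((hu0 n z).trans ?_)
    exact mul_le_mul_of_nonneg_left ((hM' z hz).trans (le_abs_self _)) (abs_nonneg _)
  have hex : ∀ z : ℂ, z ∈ ball (0:ℂ) (⌊‖z‖⌋₊ + 1 : ℕ) := by
    intro z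
    rw [mem_ball_zero_iff]
    push_cast
    exact Nat.lt_floor_add_one _
  have huniv : (⋃ R : ℕ, ball (0:ℂ) R) = univ :=
    eq_univ_of_forall fun z => mem_iUnion.2 ⟨_, hex z⟩
  have hloc : TendstoLocallyUniformlyOn (fun N z => ∑ n ∈ Finset.range N, f n z)
      (fun z => ∑' n, f n z) atTop univ := by
    rw [← huniv]
    exact tendstoLocallyUniformlyOn_iUnion (fun R => isOpen_ball)
      fun R => (hball R).tendstoLocallyUniformlyOn
  have hpart : ∀ N, Differentiable ℂ (fun z => ∑ n ∈ Finset.range N, f n z) := fun N =>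
    Differentiable.fun_sum fun n _ => hf n
  refine ⟨?_, ?_⟩
  · rw [← differentiableOn_univ]
    exact hloc.differentiableOn (Eventually.of_forall fun N => (hpart N).differentiableOn)
      isOpen_univ
  · intro k a hs
    have h1 := tendsto_iteratedDeriv hpart hloc k a
    have h2 : (fun N => iteratedDeriv k (fun z => ∑ n ∈ Finset.range N, f n z) a) =
        fun N => ∑ n ∈ Finset.range N, iteratedDeriv k (f n) a := by
      funext N
      exact iteratedDeriv_fun_sum fun n _ => (hf n).contDiff.contDiffAt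
    rw [h2] at h1
    exact tendsto_nhds_unique h1 hs.hasSum.tendsto_sum_nat

theorem main (a : ℕ → ℂ) (p : ℕ → ℕ) (hp : ∀ n, 1 ≤ p n) (hU : Univ a p) :
    ∃ f : ℂ → ℂ, InE f ∧ (∃ z, f z ≠ 0) ∧
      (∀ n, ∀ k < p n, iteratedDeriv k f (a n) = 0) ∧
      ∃ ε > (0:ℝ), ∃ c > (0:ℝ), ∀ n,
        ε * Real.exp (-(c * rho (a n))) ≤
          ‖iteratedDeriv (p n) f (a n)‖ / ((p n).factorial : ℝ) := by
  classical
  -- the 0-1 interpolating functions at order zero, used for summability
  obtain ⟨N0, hN0, h0⟩ := uniform_interp a p (fun _ => 0) hU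
  have hsum0 : Summable fun n => Real.exp (-((2 * N0 + 2) * rho (a n))) := by
    refine summable_exp_rho hN0 fun n => ?_
    obtain ⟨g, hg1, hg2, hg3⟩ := h0 n
    refine ⟨g, hg1, hg2, fun m => ?_⟩
    have := hg3 m 0 (hp m)
    simpa using this
  -- the interpolating functions at order `p - 1`
  obtain ⟨N, hN, h1⟩ := uniform_interp a p (fun n => p n - 1) hU
  choose g hg1 hg2 hg3 using h1
  set K0 : ℝ := 2 * N0 + 2 with hK0
  have hK0pos : 0 < K0 := by positivity
  set w : ℕ → ℝ := fun n => Real.exp (-((K0 + 1) * rho (a n))) with hw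
  have hwpos : ∀ n, 0 < w n := fun n => Real.exp_pos _
  set f : ℕ → ℂ → ℂ := fun n z => (z - a n) * g n z with hfdef
  have hfd : ∀ n, Differentiable ℂ (f n) := fun n => (differentiable_id.sub_const _).mul (hg1 n)
  have hfb : ∀ n z, ‖f n z‖ ≤ (1 + ‖a n‖) * (2 * N * Real.exp ((N + 1) * rho z)) := by
    intro n z
    simp only [hfdef]
    rw [norm_mul]
    have h2 : ‖z - a n‖ ≤ (1 + ‖a n‖) * (1 + ‖z‖) := by
      have := norm_sub_le z (a n)
      nlinarith [norm_nonneg z, norm_nonneg (a n)]
    have h3 := one_add_norm_le z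
    have h4 := hg2 n z
    have h5 : Real.exp ((N + 1) * rho z) = Real.exp (N * rho z) * Real.exp (rho z) := by
      rw [← Real.exp_add]; ring_nf
    calc ‖z - a n‖ * ‖g n z‖ ≤ ((1 + ‖a n‖) * (1 + ‖z‖)) * (N * Real.exp (N * rho z)) := by
          gcongr
      _ ≤ ((1 + ‖a n‖) * (2 * Real.exp (rho z))) * (N * Real.exp (N * rho z)) := by
          gcongr
      _ = _ := by rw [h5]; ring
  -- vanishing
  have hval : ∀ n m κ, κ < p m → iteratedDeriv κ (g n) (a m) =
      if κ = p m - 1 ∧ m = n then (κ.factorial : ℂ) else 0 := by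
    intro n m κ hκ
    have h2 := hg3 n m κ hκ
    have h3 : ((κ.factorial : ℕ) : ℂ) ≠ 0 := by exact_mod_cast κ.factorial_ne_zero
    rw [div_eq_iff h3] at h2
    rw [h2]
    by_cases h4 : κ = p m - 1 <;> by_cases h5 : m = n <;> simp [h4, h5]
  have hfv : ∀ n m κ, κ < p m → iteratedDeriv κ (f n) (a m) = 0 := by
    intro n m κ hκ
    simp only [hfdef]
    rw [iteratedDeriv_linear_mul (hg1 n)]
    simp only
    rw [hval n m κ hκ]
    rcases κ with _ | κ
    · by_cases h4 : m = n
      · simp [h4]
      · simp [h4]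
    · rw [Nat.add_sub_cancel, hval n m κ (by omega)]
      have h5 : ¬ (κ = p m - 1 ∧ m = n) := fun h => by omega
      rw [if_neg h5]
      by_cases h4 : m = n
      · subst h4; simp
      · rw [if_neg (fun h => h4 h.2)]; simp
  have hfp : ∀ n, iteratedDeriv (p n) (f n) (a n) = ((p n).factorial : ℂ) := by
    intro n
    simp only [hfdef]
    rw [iteratedDeriv_linear_mul (hg1 n)]
    simp only
    rw [hval n n (p n - 1) (by have := hp n; omega), if_pos ⟨rfl, rfl⟩, sub_self, zero_mul, zero_add]
    have := Nat.mul_factorial_pred (show p n ≠ 0 by have := hp n; omega)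
    exact_mod_cast this
  -- Cauchy estimate
  have hcauchy : ∀ n m k, ‖iteratedDeriv k (f n) (a m)‖ / (k.factorial : ℝ) ≤
      (1 + ‖a n‖) * (2 * N * Real.exp ((N + 1) * (rho (a m) + 5))) := by
    intro n m k
    have h2 := Complex.norm_iteratedDeriv_le_of_forall_mem_sphere_norm_le (c := a m) (R := 1)
      (C := (1 + ‖a n‖) * (2 * N * Real.exp ((N + 1) * (rho (a m) + 5)))) (F := ℂ) (f := f n) k
      one_pos (hfd n).diffContOnCl (fun z hz => by
        refine (hfb n z).trans ?_
        have h3 : rho z ≤ rho (a m) + 5 := rho_le (by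
          rw [← dist_eq_norm, mem_sphere.1 hz]; norm_num)
        gcongr)
    have h4 : (0:ℝ) < (k.factorial : ℝ) := by exact_mod_cast k.factorial_pos
    rw [div_le_iff₀ h4]
    rw [one_pow, div_one] at h2
    linarith
  -- summability of w (1 + |a|)
  have hwsum : Summable fun n => w n * (1 + ‖a n‖) := by
    refine Summable.of_nonneg_of_le (fun n => by positivity) (fun n => ?_) (hsum0.mul_left 2)
    have h2 := one_add_norm_le (a n)
    have h3 : w n * Real.exp (rho (a n)) = Real.exp (-(K0 * rho (a n))) := by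
      simp only [hw]
      rw [← Real.exp_add]; ring_nf
    calc w n * (1 + ‖a n‖) ≤ w n * (2 * Real.exp (rho (a n))) := by gcongr
      _ = 2 * Real.exp (-(K0 * rho (a n))) := by rw [← h3]; ring
  -- the integers K
  obtain ⟨T, hT⟩ : ∃ T : ℝ, ∑' n, Real.exp (-(K0 * rho (a n))) < T := exists_gt _
  have hT0 : 0 < T := lt_of_le_of_lt (tsum_nonneg fun n => (Real.exp_pos _).le) hT
  set K : ℕ → ℕ := fun n => ⌈T * Real.exp (K0 * rho (a n))⌉₊ with hK
  have hKpos : ∀ n, 0 < K n := fun n => Nat.ceil_pos.2 (by positivity)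
  have hKlow : ∀ n, T * Real.exp (K0 * rho (a n)) ≤ K n := fun n => Nat.le_ceil _
  have hKup : ∀ n, (K n : ℝ) ≤ (T + 1) * Real.exp (K0 * rho (a n)) := by
    intro n
    have h2 := (Nat.ceil_lt_add_one (show 0 ≤ T * Real.exp (K0 * rho (a n)) by positivity)).le
    have h3 : 1 ≤ Real.exp (K0 * rho (a n)) := Real.one_le_exp (by
      have := rho_nonneg (a n); positivity)
    simp only [hK]
    linarith
  have hKs : ∀ M, ∑ m ∈ Finset.range M, (1 : ℝ) / K m < 1 := by
    intro M
    have h2 : ∑ m ∈ Finset.range M, (1 : ℝ) / K m ≤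
        ∑ m ∈ Finset.range M, T⁻¹ * Real.exp (-(K0 * rho (a m))) := by
      refine Finset.sum_le_sum fun m _ => ?_
      rw [Real.exp_neg, ← mul_inv, one_div]
      exact inv_anti₀ (by positivity) (hKlow m)
    have h3 : ∑ m ∈ Finset.range M, Real.exp (-(K0 * rho (a m))) < T :=
      lt_of_le_of_lt (hsum0.sum_le_tsum _ fun i _ => (Real.exp_pos _).le) hT
    rw [← Finset.mul_sum] at h2
    refine lt_of_le_of_lt h2 ?_
    rw [inv_mul_lt_iff₀ hT0]
    linarith
  -- the coefficient matrix
  set c : ℕ → ℕ → ℂ := fun m n =>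
    (w n : ℂ) * (iteratedDeriv (p m) (f n) (a m) / ((p m).factorial : ℂ)) with hc
  have hcs : ∀ m, Summable fun n => ‖c m n‖ := by
    intro m
    refine Summable.of_nonneg_of_le (fun n => norm_nonneg _) (fun n => ?_)
      (hwsum.mul_right (2 * N * Real.exp ((N + 1) * (rho (a m) + 5))))
    simp only [hc]
    rw [norm_mul, norm_div, Complex.norm_real, Real.norm_eq_abs, abs_of_pos (hwpos n),
      Complex.norm_natCast, mul_assoc]
    exact mul_le_mul_of_nonneg_left (hcauchy n m (p m)) (hwpos n).le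
  have hcd : ∀ m, c m m = (w m : ℂ) := by
    intro m
    simp only [hc]
    rw [hfp m, div_self (by exact_mod_cast (p m).factorial_ne_zero), mul_one]
  obtain ⟨θ, hθ1, hθ2⟩ := exists_coeff K hKpos hKs c hcs w hwpos hcd
  -- the series
  set F : ℕ → ℂ → ℂ := fun n z => ((θ n : ℂ) * (w n : ℂ)) * f n z with hF
  have hFd : ∀ n, Differentiable ℂ (F n) := fun n => (hfd n).const_mul _
  have hBc : Continuous fun z => 2 * N * Real.exp ((N + 1) * rho z) := by
    have := continuous_rho
    fun_prop
  have hFb : ∀ n z, ‖F n z‖ ≤ (w n * (1 + ‖a n‖)) * (2 * N * Real.exp ((N + 1) * rho z)) := by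
    intro n z
    simp only [hF]
    rw [norm_mul, norm_mul, Complex.norm_real, Complex.norm_real, Real.norm_eq_abs,
      Real.norm_eq_abs, abs_of_pos (hwpos n), abs_of_nonneg (hθ1 n).1]
    have h2 := hfb n z
    calc θ n * w n * ‖f n z‖ ≤ 1 * w n * ((1 + ‖a n‖) * (2 * N * Real.exp ((N + 1) * rho z))) := by
          have := (hθ1 n).2
          gcongr
      _ = _ := by ring
  obtain ⟨hser1, hser2⟩ := series_props hFd hwsum hBc (fun z => by positivity) hFb
  have hFder : ∀ n m k, iteratedDeriv k (F n) (a m) =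
      ((θ n : ℂ) * (w n : ℂ)) * iteratedDeriv k (f n) (a m) := by
    intro n m k
    simp only [hF]
    exact iteratedDeriv_const_mul_field _ _
  have hzero : ∀ m, ∀ k < p m, iteratedDeriv k (fun z => ∑' n, F n z) (a m) = 0 := by
    intro m k hk
    have h2 : (fun n => iteratedDeriv k (F n) (a m)) = fun _ => 0 := by
      funext n
      rw [hFder, hfv n m k hk, mul_zero]
    rw [hser2 k (a m) (by rw [h2]; exact summable_zero), h2, tsum_zero]
  have htop : ∀ m, iteratedDeriv (p m) (fun z => ∑' n, F n z) (a m) / ((p m).factorial : ℂ) =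
      ∑' n, (θ n : ℂ) * c m n := by
    intro m
    have hne : ((p m).factorial : ℂ) ≠ 0 := by exact_mod_cast (p m).factorial_ne_zero
    have h2 : (fun n => iteratedDeriv (p m) (F n) (a m)) =
        fun n => ((p m).factorial : ℂ) * ((θ n : ℂ) * c m n) := by
      funext n
      rw [hFder]
      simp only [hc]
      field_simp
    have h3 : Summable fun n => (θ n : ℂ) * c m n := by
      refine Summable.of_norm_bounded (hcs m) fun n => ?_
      rw [norm_mul, Complex.norm_real, Real.norm_eq_abs, abs_of_nonneg (hθ1 n).1]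
      exact mul_le_of_le_one_left (norm_nonneg _) (hθ1 n).2
    rw [hser2 (p m) (a m) (by rw [h2]; exact h3.mul_left _), h2, tsum_mul_left]
    field_simp
  have hlow : ∀ m, (1 / (2 * (T + 1))) * Real.exp (-((2 * K0 + 1) * rho (a m))) ≤
      ‖iteratedDeriv (p m) (fun z => ∑' n, F n z) (a m)‖ / ((p m).factorial : ℝ) := by
    intro m
    have h2 := hθ2 m
    rw [← htop m, norm_div, Complex.norm_natCast] at h2
    refine le_trans ?_ h2
    have hKm : (0:ℝ) < K m := by exact_mod_cast hKpos m
    rw [le_div_iff₀ (by positivity)]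
    have h3 := hKup m
    have h4 : Real.exp (-((2 * K0 + 1) * rho (a m))) * Real.exp (K0 * rho (a m)) = w m := by
      simp only [hw]
      rw [← Real.exp_add]; ring_nf
    calc 1 / (2 * (T + 1)) * Real.exp (-((2 * K0 + 1) * rho (a m))) * (2 * (K m : ℝ))
        ≤ 1 / (2 * (T + 1)) * Real.exp (-((2 * K0 + 1) * rho (a m))) *
          (2 * ((T + 1) * Real.exp (K0 * rho (a m)))) := by gcongr
      _ = Real.exp (-((2 * K0 + 1) * rho (a m))) * Real.exp (K0 * rho (a m)) := by
          field_simp
      _ = w m := h4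
  refine ⟨fun z => ∑' n, F n z, ⟨hser1, ?_⟩, ?_, hzero, 1 / (2 * (T + 1)), by positivity,
    2 * K0 + 1, by positivity, hlow⟩
  · set S : ℝ := ∑' n, w n * (1 + ‖a n‖) with hS
    have hS0 : 0 ≤ S := tsum_nonneg fun n => by positivity
    refine ⟨(S + 1) * (2 * N), by positivity, N + 1, by positivity, fun z => ?_⟩
    have h2 : Summable fun n => ‖F n z‖ := Summable.of_nonneg_of_le (fun n => norm_nonneg _)
      (fun n => hFb n z) (hwsum.mul_right _)
    calc ‖∑' n, F n z‖ ≤ ∑' n, ‖F n z‖ := norm_tsum_le_tsum_norm h2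
      _ ≤ ∑' n, (w n * (1 + ‖a n‖)) * (2 * N * Real.exp ((N + 1) * rho z)) :=
          h2.tsum_le_tsum (fun n => hFb n z) (hwsum.mul_right _)
      _ = S * (2 * N * Real.exp ((N + 1) * rho z)) := by rw [tsum_mul_right]
      _ ≤ (S + 1) * (2 * N) * Real.exp ((N + 1) * rho z) := by
          have : 0 ≤ 2 * N * Real.exp ((N + 1) * rho z) := by positivity
          nlinarith
  · by_contra hcon
    push Not at hcon
    have h2 : (fun z => ∑' n, F n z) = fun _ => (0:ℂ) := by
      funext z
      exact hcon z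
    have h3 := hlow 0
    rw [h2] at h3
    have h4 : iteratedDeriv (p 0) (fun _ : ℂ => (0:ℂ)) (a 0) = 0 := by
      rw [iteratedDeriv_const]
      split_ifs <;> rfl
    rw [h4, norm_zero, zero_div] at h3
    have h5 : 0 < (1 / (2 * (T + 1))) * Real.exp (-((2 * K0 + 1) * rho (a 0))) := by positivity
    linarith

end Pool.Agent.N242.UI
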