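import Pool.Agent.W778.UI.A

set_option autoImplicit false

/-!
Uniform bounds for interpolating functions, by the Baire category theorem, and separation.
-/

namespace Pool.Agent.N242.UI

open Set Filter Topology Metric
open Pool.Agent.W778.UI

/-- The class. -/
def InE (f : ℂ → ℂ) : Prop :=
  Differentiable ℂ f ∧ ∃ A > (0:ℝ), ∃ B > (0:ℝ), ∀ z : ℂ, ‖f z‖ ≤ A * Real.exp (B * rho z)

/-- Universal interpolation. -/
def Univ (a : ℕ → ℂ) (p : ℕ → ℕ) : Prop :=
  ∀ lam : ℕ → ℕ → ℂ,
      (∃ A > (0:ℝ), ∃ B > (0:ℝ), ∀ n, ∀ κ < p n,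
        ‖lam n κ‖ ≤ A * Real.exp (B * rho (a n))) →
      ∃ g : ℂ → ℂ, InE g ∧ ∀ n, ∀ κ < p n,
        iteratedDeriv κ g (a n) / (κ.factorial : ℂ) = lam n κ

/-- `g` interpolates `ω`. -/
def Interp (a : ℕ → ℂ) (p s : ℕ → ℕ) (ω : ℕ → ℂ) (g : ℂ → ℂ) : Prop :=
  ∀ m, ∀ κ < p m, iteratedDeriv κ g (a m) / (κ.factorial : ℂ) = if κ = s m then ω m else 0

theorem exp_bound {A B N t : ℝ} (hA : A ≤ N) (hB : B ≤ N) (hN : 0 ≤ N) (ht : 0 ≤ t) :
    A * Real.exp (B * t) ≤ N * Real.exp (N * t) := by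
  have h1 : Real.exp (B * t) ≤ Real.exp (N * t) :=
    Real.exp_le_exp.2 (mul_le_mul_of_nonneg_right hB ht)
  exact mul_le_mul hA h1 (Real.exp_pos _).le hN

theorem iteratedDeriv_sub' {f g : ℂ → ℂ} (hf : Differentiable ℂ f) (hg : Differentiable ℂ g)
    (k : ℕ) (z : ℂ) : iteratedDeriv k (fun w => f w - g w) z =
      iteratedDeriv k f z - iteratedDeriv k g z :=
  iteratedDeriv_fun_sub (hf.contDiff.contDiffAt) (hg.contDiff.contDiffAt)

theorem uniform_interp (a : ℕ → ℂ) (p s : ℕ → ℕ) (hU : Univ a p) :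
    ∃ N : ℝ, 0 < N ∧ ∀ n, ∃ g : ℂ → ℂ, Differentiable ℂ g ∧
      (∀ z, ‖g z‖ ≤ N * Real.exp (N * rho z)) ∧
      Interp a p s (fun m => if m = n then 1 else 0) g := by
  classical
  let F : ℕ → Set (BoundedContinuousFunction ℕ ℂ) := fun N =>
    {ω | ∃ g : ℂ → ℂ, Differentiable ℂ g ∧ (∀ z, ‖g z‖ ≤ N * Real.exp (N * rho z)) ∧
      Interp a p s ω g}
  have hclosed : ∀ N, IsClosed (F N) := by
    intro N
    apply IsSeqClosed.isClosed
    intro ω ω' hω hlim
    choose g hg1 hg2 hg3 using hω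
    obtain ⟨Φ, hΦ1, hΦ2, hΦ3⟩ := montel_entire g hg1 (fun z => N * Real.exp (N * rho z))
      (by
        have := continuous_rho
        fun_prop) hg2 (Filter.hyperfilter ℕ)
    refine ⟨Φ, hΦ1, hΦ2, fun m κ hκ => ?_⟩
    have h1 := (tendsto_iteratedDeriv hg1 hΦ3 κ (a m)).div_const ((κ.factorial : ℕ) : ℂ)
    have h2 : (fun i => iteratedDeriv κ (g i) (a m) / ((κ.factorial : ℕ) : ℂ)) =
        fun i => if κ = s m then ω i m else 0 := by
      funext i
      exact hg3 i m κ hκ
    rw [h2] at h1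
    refine tendsto_nhds_unique h1 ?_
    have hle : ((Filter.hyperfilter ℕ : Ultrafilter ℕ) : Filter ℕ) ≤ atTop := by
      rw [← Nat.cofinite_eq_atTop]
      exact Filter.hyperfilter_le_cofinite
    by_cases hs : κ = s m
    · simp only [if_pos hs]
      have h3 : Tendsto (fun i => ω i m) atTop (𝓝 (ω' m)) :=
        ((continuous_eval_const m).tendsto ω').comp hlim
      exact h3.mono_left hle
    · simp only [if_neg hs]
      exact tendsto_const_nhds
  have hunion : ⋃ N, F N = univ := by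
    refine eq_univ_of_forall fun ω => ?_
    obtain ⟨g, ⟨hg1, A, hA, B, hB, hg2⟩, hg3⟩ := hU (fun m κ => if κ = s m then ω m else 0)
      ⟨‖ω‖ + 1, by positivity, 1, one_pos, fun n κ hκ => by
        have h1 : ‖(if κ = s n then ω n else 0 : ℂ)‖ ≤ ‖ω‖ := by
          split_ifs
          · exact ω.norm_coe_le_norm n
          · simp
        have h2 : (1:ℝ) ≤ Real.exp (1 * rho (a n)) := Real.one_le_exp (by
          have := rho_nonneg (a n); linarith)
        nlinarith [norm_nonneg ω]⟩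
    obtain ⟨N, hN⟩ := exists_nat_ge (max A B)
    rw [mem_iUnion]
    refine ⟨N, g, hg1, fun z => (hg2 z).trans ?_, hg3⟩
    exact exp_bound ((le_max_left _ _).trans hN) ((le_max_right _ _).trans hN) (Nat.cast_nonneg _)
      (rho_nonneg z)
  obtain ⟨N, ω0, hω0⟩ := nonempty_interior_of_iUnion_of_closed hclosed hunion
  obtain ⟨r, hr, hball⟩ := Metric.isOpen_iff.1 isOpen_interior ω0 hω0
  have hball' : ball ω0 r ⊆ F N := hball.trans interior_subset
  obtain ⟨g0, hg01, hg02, hg03⟩ := hball' (mem_ball_self hr)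
  set N' : ℝ := max (N : ℝ) (4 / r * (N : ℝ)) + 1 with hN'
  have hN0 : (0:ℝ) ≤ N := Nat.cast_nonneg N
  have hN'1 : (N:ℝ) ≤ N' := (le_max_left _ _).trans (by linarith)
  have hN'2 : 4 / r * (N : ℝ) ≤ N' := (le_max_right _ _).trans (by linarith)
  have hN'0 : 0 < N' := by
    have : (0:ℝ) ≤ max (N:ℝ) (4 / r * N) := hN0.trans (le_max_left _ _)
    linarith
  refine ⟨N', hN'0, fun n => ?_⟩
  let e : BoundedContinuousFunction ℕ ℂ := BoundedContinuousFunction.ofNormedAddCommGroupDiscrete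
    (fun m => if m = n then ((r / 2 : ℝ) : ℂ) else 0) (r / 2) (by
      intro m
      split_ifs
      · rw [Complex.norm_real, Real.norm_eq_abs, abs_of_pos (by positivity)]
      · simp; positivity)
  have he : ∀ m, e m = if m = n then ((r / 2 : ℝ) : ℂ) else 0 := fun m => rfl
  have he1 : ω0 + e ∈ ball ω0 r := by
    rw [mem_ball, dist_eq_norm, add_sub_cancel_left]
    have : ‖e‖ ≤ r / 2 := by
      rw [BoundedContinuousFunction.norm_le (by positivity)]
      intro m
      rw [he]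
      split_ifs
      · rw [Complex.norm_real, Real.norm_eq_abs, abs_of_pos (by positivity)]
      · simp; positivity
    linarith
  obtain ⟨g1, hg11, hg12, hg13⟩ := hball' he1
  refine ⟨fun z => ((2 / r : ℝ) : ℂ) * (g1 z - g0 z), ?_, ?_, ?_⟩
  · exact (hg11.sub hg01).const_mul _
  · intro z
    rw [norm_mul, Complex.norm_real, Real.norm_eq_abs, abs_of_pos (by positivity)]
    have h1 : ‖g1 z - g0 z‖ ≤ 2 * (N * Real.exp (N * rho z)) := by
      refine (norm_sub_le _ _).trans ?_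
      linarith [hg12 z, hg02 z]
    calc 2 / r * ‖g1 z - g0 z‖ ≤ 2 / r * (2 * (N * Real.exp (N * rho z))) := by gcongr
      _ = (4 / r * N) * Real.exp (N * rho z) := by ring
      _ ≤ N' * Real.exp (N' * rho z) := exp_bound hN'2 hN'1 hN'0.le (rho_nonneg z)
  · intro m κ hκ
    have h1 := hg13 m κ hκ
    have h0 := hg03 m κ hκ
    have h2 : iteratedDeriv κ (fun z => ((2 / r : ℝ) : ℂ) * (g1 z - g0 z)) (a m) =
        ((2 / r : ℝ) : ℂ) * (iteratedDeriv κ g1 (a m) - iteratedDeriv κ g0 (a m)) := by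
      rw [← iteratedDeriv_sub' hg11 hg01]
      exact iteratedDeriv_const_mul_field _ _
    rw [h2, mul_div_assoc, sub_div, h1, h0]
    by_cases hs : κ = s m
    · simp only [if_pos hs]
      rw [BoundedContinuousFunction.add_apply, he]
      by_cases hm : m = n
      · simp only [if_pos hm]
        have : (r : ℂ) ≠ 0 := by exact_mod_cast hr.ne'
        push_cast
        field_simp
        ring
      · simp only [if_neg hm]
        ring
    · simp only [if_neg hs]
      ring

end Pool.Agent.N242.UI
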