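import Pool.Agent.N242.UI.Unif

set_option autoImplicit false

/-!
Separation of the nodes of a universal interpolating sequence and summability of weights.
-/

namespace Pool.Agent.N242.UI

open Set Filter Topology Metric MeasureTheory
open Pool.Agent.W778.UI

/-- Nodes with uniformly bounded `0-1` interpolating functions are separated. -/
theorem separated {a : ℕ → ℂ} {N : ℝ} (hN : 0 < N)
    (h : ∀ n, ∃ g : ℂ → ℂ, Differentiable ℂ g ∧ (∀ z, ‖g z‖ ≤ N * Real.exp (N * rho z)) ∧
      ∀ m, g (a m) = if m = n then 1 else 0) (n m : ℕ) (hnm : m ≠ n) :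
    1 / (2 * (N * Real.exp (N * (rho (a n) + 5))) + 1) ≤ dist (a m) (a n) := by
  obtain ⟨g, hg1, hg2, hg3⟩ := h n
  set M : ℝ := N * Real.exp (N * (rho (a n) + 5)) with hM
  have hM0 : 0 < M := by positivity
  by_cases hd : dist (a m) (a n) < 1
  · have hb : ∀ z ∈ ball (a n) 1, ‖g z‖ ≤ M := by
      intro z hz
      refine (hg2 z).trans ?_
      have h1 : rho z ≤ rho (a n) + 5 := rho_le (by
        rw [← dist_eq_norm]
        have := mem_ball.1 hz
        linarith)
      rw [hM]
      gcongr
    have hmaps : MapsTo g (ball (a n) 1) (ball (g (a n)) (2 * M + 1)) := by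
      intro z hz
      rw [mem_ball, dist_eq_norm]
      have h1 := hb z hz
      have h2 := hb (a n) (mem_ball_self one_pos)
      have h3 := norm_sub_le (g z) (g (a n))
      linarith
    have h4 := Complex.dist_le_div_mul_dist_of_mapsTo_ball hg1.differentiableOn
      (hmaps.mono_right ball_subset_closedBall)
      (mem_ball.2 hd)
    have h5 : dist (g (a m)) (g (a n)) = 1 := by
      rw [hg3 m, hg3 n, if_neg hnm, if_pos rfl, dist_eq_norm]
      simp
    rw [h5, div_one] at h4
    rw [div_le_iff₀ (by positivity)]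
    linarith
  · rw [not_lt] at hd
    refine le_trans ?_ hd
    rw [div_le_one (by positivity)]
    linarith

theorem weight_lower (z : ℂ) : Real.exp (-(2 * rho z)) ≤ (1 + ‖z‖ ^ 2) ^ (-(4:ℝ) / 2) := by
  have h1 : (0:ℝ) < 1 + ‖z‖ ^ 2 := by positivity
  rw [Real.rpow_def_of_pos h1]
  apply Real.exp_le_exp.2
  unfold rho
  have : 0 ≤ |z.im| := abs_nonneg _
  linarith

/-- Summability of exponential weights on the nodes. -/
theorem summable_exp_rho {a : ℕ → ℂ} {N : ℝ} (hN : 0 < N)
    (h : ∀ n, ∃ g : ℂ → ℂ, Differentiable ℂ g ∧ (∀ z, ‖g z‖ ≤ N * Real.exp (N * rho z)) ∧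
      ∀ m, g (a m) = if m = n then 1 else 0) :
    Summable fun n => Real.exp (-((2 * N + 2) * rho (a n))) := by
  set r : ℕ → ℝ := fun n => 1 / (2 * (2 * (N * Real.exp (N * (rho (a n) + 5))) + 1)) with hr
  have hrpos : ∀ n, 0 < r n := fun n => by
    simp only [hr]; positivity
  have hr1 : ∀ n, r n ≤ 1 := fun n => by
    simp only [hr]
    have : 0 < N * Real.exp (N * (rho (a n) + 5)) := by positivity
    rw [div_le_one (by positivity)]
    linarith
  have hsep : ∀ n m, m ≠ n → 2 * r n ≤ dist (a m) (a n) := by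
    intro n m hnm
    have h1 := separated hN h n m hnm
    have h2 : 2 * r n = 1 / (2 * (N * Real.exp (N * (rho (a n) + 5))) + 1) := by
      simp only [hr]
      have : 0 < N * Real.exp (N * (rho (a n) + 5)) := by positivity
      field_simp
    rw [h2]
    exact h1
  have hdisj : Pairwise (Function.onFun Disjoint fun n => ball (a n) (r n)) := by
    intro n m hnm
    apply ball_disjoint_ball
    have h1 := hsep n m (Ne.symm hnm)
    have h2 := hsep m n hnm
    rw [dist_comm] at h1
    linarith
  have hint : Integrable (fun z : ℂ => ((1:ℝ) + ‖z‖ ^ 2) ^ (-(4:ℝ) / 2)) volume := by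
    apply integrable_rpow_neg_one_add_norm_sq
    rw [Complex.finrank_real_complex]
    norm_num
  have hs := (hasSum_integral_iUnion (f := fun z : ℂ => ((1:ℝ) + ‖z‖ ^ 2) ^ (-(4:ℝ) / 2))
    (fun n => measurableSet_ball) hdisj hint.integrableOn).summable
  -- comparison
  set c : ℝ := (1 / (2 * (2 * N * Real.exp (5 * N) + 1))) ^ 2 * Real.pi * Real.exp (-10) with hc
  have hc0 : 0 < c := by
    have := Real.pi_pos
    positivity
  have hlow : ∀ n, c * Real.exp (-((2 * N + 2) * rho (a n))) ≤
      ∫ z in ball (a n) (r n), ((1:ℝ) + ‖z‖ ^ 2) ^ (-(4:ℝ) / 2) := by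
    intro n
    have h1 : ∀ z ∈ ball (a n) (r n), Real.exp (-(2 * (rho (a n) + 5))) ≤
        ((1:ℝ) + ‖z‖ ^ 2) ^ (-(4:ℝ) / 2) := by
      intro z hz
      refine le_trans ?_ (weight_lower z)
      apply Real.exp_le_exp.2
      have h2 : rho z ≤ rho (a n) + 5 := rho_le (by
        rw [← dist_eq_norm]
        have := mem_ball.1 hz
        linarith [hr1 n])
      linarith
    have h2 : ∫ z in ball (a n) (r n), Real.exp (-(2 * (rho (a n) + 5))) ≤
        ∫ z in ball (a n) (r n), ((1:ℝ) + ‖z‖ ^ 2) ^ (-(4:ℝ) / 2) := by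
      refine setIntegral_mono_on ?_ hint.integrableOn measurableSet_ball h1
      rw [integrableOn_const_iff]
      right
      exact measure_ball_lt_top
    refine le_trans ?_ h2
    rw [setIntegral_const, smul_eq_mul, Measure.real, Complex.volume_ball]
    rw [ENNReal.toReal_mul, ENNReal.toReal_pow, ENNReal.toReal_ofReal (hrpos n).le]
    have h3 : (NNReal.pi : ENNReal).toReal = Real.pi := by simp
    rw [h3]
    have h4 : (1 / (2 * (2 * N * Real.exp (5 * N) + 1))) * Real.exp (-(N * rho (a n))) ≤ r n := by
      simp only [hr]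
      have hρ := rho_nonneg (a n)
      have h5 : 2 * (2 * (N * Real.exp (N * (rho (a n) + 5))) + 1) ≤
          2 * (2 * N * Real.exp (5 * N) + 1) * Real.exp (N * rho (a n)) := by
        have h6 : Real.exp (N * (rho (a n) + 5)) = Real.exp (5 * N) * Real.exp (N * rho (a n)) := by
          rw [← Real.exp_add]; ring_nf
        rw [h6]
        have h7 : 1 ≤ Real.exp (N * rho (a n)) := Real.one_le_exp (by positivity)
        nlinarith
      rw [Real.exp_neg, one_div, one_div, ← mul_inv]
      exact inv_anti₀ (by positivity) h5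
    have h8 : 0 ≤ (1 / (2 * (2 * N * Real.exp (5 * N) + 1))) * Real.exp (-(N * rho (a n))) := by
      positivity
    have h9 := pow_le_pow_left₀ h8 h4 2
    calc c * Real.exp (-((2 * N + 2) * rho (a n)))
        = ((1 / (2 * (2 * N * Real.exp (5 * N) + 1))) * Real.exp (-(N * rho (a n)))) ^ 2 *
            Real.pi * Real.exp (-(2 * (rho (a n) + 5))) := by
          rw [hc, mul_pow, ← Real.exp_nat_mul]
          have : Real.exp (-((2 * N + 2) * rho (a n))) * Real.exp (-10) =
              Real.exp ((2:ℕ) * -(N * rho (a n))) * Real.exp (-(2 * (rho (a n) + 5))) := by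
            rw [← Real.exp_add, ← Real.exp_add]
            congr 1
            push_cast
            ring
          linear_combination (1 / (2 * (2 * N * Real.exp (5 * N) + 1))) ^ 2 * Real.pi * this
      _ ≤ r n ^ 2 * Real.pi * Real.exp (-(2 * (rho (a n) + 5))) := by
          have := Real.pi_pos
          gcongr
  have h1 : Summable fun n => c * Real.exp (-((2 * N + 2) * rho (a n))) :=
    Summable.of_nonneg_of_le (fun n => by positivity) hlow hs
  have h2 := h1.mul_left c⁻¹
  refine h2.congr fun n => ?_
  field_simp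

end Pool.Agent.N242.UI
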